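import Pool.Agent.PRP.Stmts

/-!
# PRP, row SPF: the specialised field
-/

set_option autoImplicit false

namespace Pool.Agent.PRP.H2

open MvPolynomial Pool.Agent.PRP

theorem adjoin_frac (K : Type) [Field K] (s : ℕ) :
    IntermediateField.adjoin K
      (Set.range fun j : Fin s => algebraMap (MvPolynomial (Fin s) K)
        (FractionRing (MvPolynomial (Fin s) K)) (X j)) = ⊤ := by
  rw [eq_top_iff]
  intro x _
  obtain ⟨a, b, hb, rfl⟩ := IsFractionRing.div_surjective (A := MvPolynomial (Fin s) K) x
  have key : ∀ p : MvPolynomial (Fin s) K,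
      algebraMap (MvPolynomial (Fin s) K) (FractionRing (MvPolynomial (Fin s) K)) p ∈
      IntermediateField.adjoin K (Set.range fun j : Fin s => algebraMap (MvPolynomial (Fin s) K)
        (FractionRing (MvPolynomial (Fin s) K)) (X j)) := by
    intro p
    induction p using MvPolynomial.induction_on with
    | C a =>
      have : algebraMap (MvPolynomial (Fin s) K) (FractionRing (MvPolynomial (Fin s) K)) (C a)
          = algebraMap K (FractionRing (MvPolynomial (Fin s) K)) a := by
        rw [IsScalarTower.algebraMap_apply K (MvPolynomial (Fin s) K)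
          (FractionRing (MvPolynomial (Fin s) K))]
        rfl
      rw [this]
      exact IntermediateField.algebraMap_mem _ _
    | add p q hp hq => rw [map_add]; exact add_mem hp hq
    | mul_X p j hp =>
      rw [map_mul]
      exact mul_mem hp (IntermediateField.subset_adjoin _ _ ⟨j, rfl⟩)
  exact div_mem (key a) (key b)

theorem spf : SpfStmt := by
  intro K _ s H hH hirr
  let R := MvPolynomial (Fin s) K
  let F := FractionRing R
  have hinj : Function.Injective (algebraMap R F) := IsFractionRing.injective R F
  let G : Polynomial F := H.map (algebraMap R F)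
  have hG : Irreducible G :=
    (Polynomial.Monic.irreducible_iff_irreducible_map_fraction_map (K := F) hH).1 hirr
  haveI : Fact (Irreducible G) := ⟨hG⟩
  let M := AdjoinRoot G
  let t : Fin s → M := fun j => algebraMap F M (algebraMap R F (X j))
  let θ : M := AdjoinRoot.root G
  let ι : F →ₐ[K] M := IsScalarTower.toAlgHom K F M
  have hat : ∀ p : R, aeval t p = algebraMap F M (algebraMap R F p) := by
    intro p
    have h1 : (aeval t : R →ₐ[K] M) = ι.comp (IsScalarTower.toAlgHom K R F) := by
      apply MvPolynomial.algHom_ext
      intro j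
      rw [aeval_X]
      rfl
    rw [h1]
    rfl
  have hev : ∀ P : Polynomial R, ev t θ P = AdjoinRoot.mk G (P.map (algebraMap R F)) := by
    intro P
    rw [← AdjoinRoot.aeval_eq, Polynomial.aeval_def, Polynomial.eval₂_map]
    unfold ev
    rw [Polynomial.coe_eval₂RingHom]
    congr 1
    ext p
    · exact hat (C p)
    · exact hat (X _)
  refine ⟨M, inferInstance, inferInstance, t, θ, ?_, ?_, ?_, ?_⟩
  · intro p q hpq
    have hpq' : aeval t p = aeval t q := hpq
    rw [hat, hat] at hpq'
    exact hinj ((algebraMap F M).injective hpq')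
  · intro P
    rw [hev, AdjoinRoot.mk_eq_zero]
    exact Polynomial.map_dvd_map _ hinj hH
  · rw [eq_top_iff]
    intro x _
    have hF : ∀ y : F, algebraMap F M y ∈ IntermediateField.adjoin K (insert θ (Set.range t)) := by
      intro y
      have hy : y ∈ IntermediateField.adjoin K
        (Set.range fun j : Fin s => algebraMap (MvPolynomial (Fin s) K)
        (FractionRing (MvPolynomial (Fin s) K)) (X j)) := by
        rw [adjoin_frac]; trivial
      have h2 : ι y ∈ (IntermediateField.adjoin K
        (Set.range fun j : Fin s => algebraMap (MvPolynomial (Fin s) K)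
        (FractionRing (MvPolynomial (Fin s) K)) (X j))).map ι := ⟨y, hy, rfl⟩
      rw [IntermediateField.adjoin_map] at h2
      refine IntermediateField.adjoin.mono K _ _ ?_ h2
      rintro _ ⟨_, ⟨j, rfl⟩, rfl⟩
      exact Set.mem_insert_of_mem _ ⟨j, rfl⟩
    obtain ⟨P, rfl⟩ := AdjoinRoot.mk_surjective x
    rw [← AdjoinRoot.aeval_eq, Polynomial.aeval_eq_sum_range]
    refine sum_mem fun i _ => ?_
    rw [Algebra.smul_def]
    exact mul_mem (hF _) (pow_mem (IntermediateField.subset_adjoin _ _ (Set.mem_insert _ _)) _)
  · have hrange : IntermediateField.adjoin K (Set.range t) = ι.fieldRange := by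
      rw [AlgHom.fieldRange_eq_map, ← adjoin_frac K s, IntermediateField.adjoin_map]
      congr 1
      rw [← Set.range_comp]
      rfl
    rw [hrange]
    have hfr : Module.finrank F M = H.natDegree := by
      have hb := (AdjoinRoot.powerBasis hG.ne_zero).finrank
      rw [AdjoinRoot.powerBasis_dim] at hb
      rw [hb]
      exact hH.natDegree_map _
    rw [← hfr]
    symm
    refine Algebra.finrank_eq_of_equiv_equiv
      (AlgEquiv.ofInjectiveField ι).toRingEquiv (RingEquiv.refl M) ?_
    ext x
    rfl

end Pool.Agent.PRP.H2

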